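import Pool.Agent.Helper68.LM2.St

/-!
# Project LM2, module DYT: the dyadic maximal theorem, assembly
-/

set_option autoImplicit false

open MeasureTheory Set Filter Topology
open scoped ENNReal

namespace Pool.Agent.Helper4.LM2

open Pool.Agent.Helper68.LM2 Pool.Agent.Helper68.LM

/-- the assembly for a given bound on the centred part -/
theorem asm_dyt (hRHO : StRHO) (p : ℝ) (m₀ : ℕ) (hp : 1 < p) (C₁ C₂ : ℝ) (hC₁ : 0 < C₁)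
    (hC₂ : 0 < C₂) (τ : ℕ → ℝ) (hτ : Seq τ m₀) (Nm : ℕ) (g : ℝ × ℝ → ℝ) (P : ℝ × ℝ) (hg : BR g)
    (hA : ∫⁻ z, (⨆ k : ℤ, ‖∑ n ∈ Finset.range Nm, Vc τ m₀ k n g (z - (2 : ℝ) ^ k • P)‖ₑ) ^ p ≤
        ENNReal.ofReal (C₁ * (1 + ∑ n ∈ Finset.range Nm, τ n ^ p)) *
          ∫⁻ z, ENNReal.ofReal (g z) ^ p)
    (hB : ∫⁻ z, (⨆ k : ℤ, ‖∑ n ∈ Finset.range Nm,
        Rh (rho τ m₀ n) k (E2 (k - (m₀ : ℤ) + 2) g) (z - (2 : ℝ) ^ k • P)‖ₑ) ^ p ≤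
        ENNReal.ofReal C₂ * ∫⁻ z, ENNReal.ofReal (g z) ^ p) :
    ∫⁻ z, (⨆ k : ℤ, ENNReal.ofReal (∑ n ∈ Finset.range Nm,
        Vn τ m₀ k n g (z - (2 : ℝ) ^ k • P))) ^ p ≤
        ENNReal.ofReal ((2 : ℝ) ^ (p - 1) * (C₁ + C₂) * (1 + ∑ n ∈ Finset.range Nm, τ n ^ p)) *
          ∫⁻ z, ENNReal.ofReal (g z) ^ p := by
  obtain ⟨-, -, -, -, -, -, -, hBR, -, hdec⟩ := hRHO τ m₀ hτ
  set A : ℝ × ℝ → ℝ≥0∞ := fun z =>
    ⨆ k : ℤ, ‖∑ n ∈ Finset.range Nm, Vc τ m₀ k n g (z - (2 : ℝ) ^ k • P)‖ₑ with hAdef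
  set B : ℝ × ℝ → ℝ≥0∞ := fun z =>
    ⨆ k : ℤ, ‖∑ n ∈ Finset.range Nm,
      Rh (rho τ m₀ n) k (E2 (k - (m₀ : ℤ) + 2) g) (z - (2 : ℝ) ^ k • P)‖ₑ with hBdef
  have hS0 : 0 ≤ ∑ n ∈ Finset.range Nm, τ n ^ p :=
    Finset.sum_nonneg (fun n _ => Real.rpow_nonneg (hτ.2.1 n).le _)
  set S : ℝ := ∑ n ∈ Finset.range Nm, τ n ^ p with hS
  have hAm : Measurable A := by
    refine Measurable.iSup (fun k => ?_)
    refine Measurable.enorm ?_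
    refine Finset.measurable_fun_sum _ (fun n _ => ?_)
    exact ((hBR n k g hg).2.1).comp (measurable_id.sub_const _)
  have hpt : ∀ z, (⨆ k : ℤ, ENNReal.ofReal (∑ n ∈ Finset.range Nm,
        Vn τ m₀ k n g (z - (2 : ℝ) ^ k • P))) ≤ A z + B z := by
    intro z
    refine iSup_le (fun k => ?_)
    have e1 : ∑ n ∈ Finset.range Nm, Vn τ m₀ k n g (z - (2 : ℝ) ^ k • P) =
        ∑ n ∈ Finset.range Nm, Vc τ m₀ k n g (z - (2 : ℝ) ^ k • P) +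
        ∑ n ∈ Finset.range Nm, Rh (rho τ m₀ n) k (E2 (k - (m₀ : ℤ) + 2) g)
          (z - (2 : ℝ) ^ k • P) := by
      rw [← Finset.sum_add_distrib]
      exact Finset.sum_congr rfl (fun n _ => hdec n k g _ hg)
    calc ENNReal.ofReal (∑ n ∈ Finset.range Nm, Vn τ m₀ k n g (z - (2 : ℝ) ^ k • P))
        ≤ ‖∑ n ∈ Finset.range Nm, Vn τ m₀ k n g (z - (2 : ℝ) ^ k • P)‖ₑ :=
          Real.ofReal_le_enorm _
      _ ≤ ‖∑ n ∈ Finset.range Nm, Vc τ m₀ k n g (z - (2 : ℝ) ^ k • P)‖ₑ +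
          ‖∑ n ∈ Finset.range Nm, Rh (rho τ m₀ n) k (E2 (k - (m₀ : ℤ) + 2) g)
            (z - (2 : ℝ) ^ k • P)‖ₑ := by
          rw [e1]
          exact enorm_add_le _ _
      _ ≤ A z + B z := by
          refine add_le_add ?_ ?_
          · exact le_iSup (fun k : ℤ =>
              ‖∑ n ∈ Finset.range Nm, Vc τ m₀ k n g (z - (2 : ℝ) ^ k • P)‖ₑ) k
          · exact le_iSup (fun k : ℤ => ‖∑ n ∈ Finset.range Nm,
              Rh (rho τ m₀ n) k (E2 (k - (m₀ : ℤ) + 2) g) (z - (2 : ℝ) ^ k • P)‖ₑ) k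
  have hp1 : 1 ≤ p := hp.le
  have h2 : (2 : ℝ≥0∞) ^ (p - 1) = ENNReal.ofReal ((2 : ℝ) ^ (p - 1)) := by
    rw [← ENNReal.ofReal_rpow_of_pos (by norm_num : (0 : ℝ) < 2)]
    norm_num
  have h2p : 0 ≤ (2 : ℝ) ^ (p - 1) := Real.rpow_nonneg (by norm_num) _
  have step : ∫⁻ z, (⨆ k : ℤ, ENNReal.ofReal (∑ n ∈ Finset.range Nm,
        Vn τ m₀ k n g (z - (2 : ℝ) ^ k • P))) ^ p ≤
      (2 : ℝ≥0∞) ^ (p - 1) * ((∫⁻ z, A z ^ p) + ∫⁻ z, B z ^ p) := by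
    calc ∫⁻ z, (⨆ k : ℤ, ENNReal.ofReal (∑ n ∈ Finset.range Nm,
        Vn τ m₀ k n g (z - (2 : ℝ) ^ k • P))) ^ p
        ≤ ∫⁻ z, (2 : ℝ≥0∞) ^ (p - 1) * (A z ^ p + B z ^ p) := by
          refine lintegral_mono (fun z => ?_)
          exact (ENNReal.rpow_le_rpow (hpt z) (by linarith)).trans
            (ENNReal.rpow_add_le_mul_rpow_add_rpow _ _ hp1)
      _ = (2 : ℝ≥0∞) ^ (p - 1) * ∫⁻ z, (A z ^ p + B z ^ p) := by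
          rw [lintegral_const_mul']
          rw [h2]
          exact ENNReal.ofReal_ne_top
      _ = (2 : ℝ≥0∞) ^ (p - 1) * ((∫⁻ z, A z ^ p) + ∫⁻ z, B z ^ p) := by
          rw [lintegral_add_left (hAm.pow_const p)]
  refine step.trans ?_
  have hC₂' : ENNReal.ofReal C₂ ≤ ENNReal.ofReal (C₂ * (1 + S)) := by
    apply ENNReal.ofReal_le_ofReal
    nlinarith
  have hAB : (∫⁻ z, A z ^ p) + ∫⁻ z, B z ^ p ≤
      ENNReal.ofReal ((C₁ + C₂) * (1 + S)) * ∫⁻ z, ENNReal.ofReal (g z) ^ p := by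
    have e1 : ENNReal.ofReal ((C₁ + C₂) * (1 + S)) =
        ENNReal.ofReal (C₁ * (1 + S)) + ENNReal.ofReal (C₂ * (1 + S)) := by
      rw [← ENNReal.ofReal_add (by positivity) (by positivity)]
      congr 1
      ring
    rw [e1, add_mul]
    exact add_le_add hA (hB.trans (mul_le_mul_left hC₂' _))
  calc (2 : ℝ≥0∞) ^ (p - 1) * ((∫⁻ z, A z ^ p) + ∫⁻ z, B z ^ p)
      ≤ (2 : ℝ≥0∞) ^ (p - 1) * (ENNReal.ofReal ((C₁ + C₂) * (1 + S)) *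
          ∫⁻ z, ENNReal.ofReal (g z) ^ p) := by
        gcongr
    _ = ENNReal.ofReal ((2 : ℝ) ^ (p - 1) * (C₁ + C₂) * (1 + S)) *
          ∫⁻ z, ENNReal.ofReal (g z) ^ p := by
        rw [h2, ← mul_assoc, ← ENNReal.ofReal_mul h2p]
        congr 2
        ring

/-- the theorem StDYT -/
theorem hDYT (_hEB : StEB) (hRHO : StRHO) (hDA : StDA) (hDB : StDB) (hHLP : StHLP) : StDYT := by
  intro p ϖ m₀ hp hϖ
  obtain ⟨C₂, hC₂, hH⟩ := hHLP p ϖ m₀ hp hϖ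
  have key : ∃ C₁ : ℝ, 0 < C₁ ∧ ∀ τ : ℕ → ℝ, Seq τ m₀ →
      ∀ (Nm : ℕ) (g : ℝ × ℝ → ℝ) (P : ℝ × ℝ), BR g → (∀ z, 0 ≤ g z) → ‖P‖ ≤ ϖ →
      ∫⁻ z, (⨆ k : ℤ, ‖∑ n ∈ Finset.range Nm, Vc τ m₀ k n g (z - (2 : ℝ) ^ k • P)‖ₑ) ^ p ≤
        ENNReal.ofReal (C₁ * (1 + ∑ n ∈ Finset.range Nm, τ n ^ p)) *
          ∫⁻ z, ENNReal.ofReal (g z) ^ p := by
    rcases lt_or_ge p 2 with h | h
    · exact hDA p ϖ m₀ hp h hϖ
    · obtain ⟨C, hC, hD⟩ := hDB p h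
      refine ⟨C, hC, fun τ hτ Nm g P hg hg0 _ => ?_⟩
      have e1 := hD τ m₀ hτ Nm g P hg
      have e2 : ∀ z, ‖g z‖ₑ = ENNReal.ofReal (g z) := fun z => Real.enorm_of_nonneg (hg0 z)
      simp only [e2] at e1
      refine e1.trans ?_
      have e3 : ENNReal.ofReal (C * ∑ n ∈ Finset.range Nm, τ n ^ p) ≤
          ENNReal.ofReal (C * (1 + ∑ n ∈ Finset.range Nm, τ n ^ p)) := by
        apply ENNReal.ofReal_le_ofReal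
        nlinarith
      gcongr
  obtain ⟨C₁, hC₁, hA⟩ := key
  refine ⟨(2 : ℝ) ^ (p - 1) * (C₁ + C₂), by positivity, fun τ hτ Nm g P hg hg0 hP => ?_⟩
  have hB := hH τ hτ Nm g P hg hP
  have e2 : ∀ z, ‖g z‖ₑ = ENNReal.ofReal (g z) := fun z => Real.enorm_of_nonneg (hg0 z)
  simp only [e2] at hB
  exact asm_dyt hRHO p m₀ hp C₁ C₂ hC₁ hC₂ τ hτ Nm g P hg (hA τ hτ Nm g P hg hg0 hP) hB

end Pool.Agent.Helper4.LM2
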