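import Pool.Agent.Helper68.LM2.Geo
import Pool.Agent.Helper27.LM.M_NUM

/-!
# Project LM2, module NUT: numeric series, by a shift from module NUM of part 1
-/

set_option autoImplicit false

open MeasureTheory Set Filter Topology
open scoped ENNReal

namespace Pool.Agent.Helper4.LM2

open Pool.Agent.Helper68.LM2 Pool.Agent.Helper68.LM

/-- the theorem StNUT -/
theorem hNUT : StNUT := by
  obtain ⟨C, hC, h⟩ := Pool.Agent.Helper27.LM.hNUM
  refine ⟨C, hC, fun N n r hr hn => ?_⟩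
  have h0 := (h (N - n) 0 r hr).1 rfl
  have e := (Equiv.addRight (n : ℤ)).tsum_eq (fun k : ℤ =>
    ENNReal.ofReal (min 1 (2 ^ N / ((2 : ℝ) ^ k * r)) *
      min 4 ((4 * Real.pi * ((2 : ℝ) ^ (k - (n : ℤ)) * r)) ^ 2)))
  rw [← e]
  have hcast : ((N - n : ℕ) : ℝ) = (N : ℝ) - n := by
    rw [Nat.cast_sub hn]
  rw [hcast] at h0
  refine le_trans (le_of_eq ?_) h0
  refine tsum_congr (fun k => ?_)
  rw [Equiv.coe_addRight]
  have e1 : (2 : ℝ) ^ N / ((2 : ℝ) ^ (k + (n : ℤ)) * r) = 2 ^ (N - n) / ((2 : ℝ) ^ k * r) := by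
    have h2 : (2 : ℝ) ^ N = 2 ^ (N - n) * 2 ^ n := by
      rw [← pow_add]
      congr 1
      omega
    rw [zpow_add₀ two_ne_zero, zpow_natCast, h2]
    have h3 : (2 : ℝ) ^ n ≠ 0 := by positivity
    have h4 : (2 : ℝ) ^ k ≠ 0 := by positivity
    field_simp
  have e2 : k + (n : ℤ) - (n : ℤ) = k - ((0 : ℕ) : ℤ) := by
    push_cast
    ring
  rw [e1, e2]

end Pool.Agent.Helper4.LM2
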